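import Pool.Agent.L0h92.LZ.VERT

/-! # Module BAS: the geometry of the cone of a Lorentzian form -/

set_option autoImplicit false

open Pool.Agent.N165.KM (IntL)
open Topology Filter

namespace Pool.Agent.L0h92.LZ

open Pool.Agent.L0h18.LZ

variable {ρ : ℕ}

lemma bil_zero_left (B : Matrix (Fin ρ) (Fin ρ) ℤ) (x : Fin ρ → ℝ) : bil B 0 x = 0 := by
  simp [bil]

lemma bil_zero_right (B : Matrix (Fin ρ) (Fin ρ) ℤ) (x : Fin ρ → ℝ) : bil B x 0 = 0 := by
  simp [bil]

lemma bil_neg_left (B : Matrix (Fin ρ) (Fin ρ) ℤ) (x y : Fin ρ → ℝ) : bil B (-x) y = -bil B x y := by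
  rw [← neg_one_smul ℝ x, bil_smul_left]; ring

lemma bil_neg_right (B : Matrix (Fin ρ) (Fin ρ) ℤ) (x y : Fin ρ → ℝ) : bil B x (-y) = -bil B x y := by
  rw [← neg_one_smul ℝ y, bil_smul_right]; ring

lemma bil_sub_left (B : Matrix (Fin ρ) (Fin ρ) ℤ) (x y z : Fin ρ → ℝ) :
    bil B (x - y) z = bil B x z - bil B y z := by
  rw [sub_eq_add_neg, bil_add_left, bil_neg_left]; ring

lemma bil_sub_right (B : Matrix (Fin ρ) (Fin ρ) ℤ) (x y z : Fin ρ → ℝ) :
    bil B x (y - z) = bil B x y - bil B x z := by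
  rw [sub_eq_add_neg, bil_add_right, bil_neg_right]; ring

lemma ne_zero_of_pos {B : Matrix (Fin ρ) (Fin ρ) ℤ} {x : Fin ρ → ℝ} (h : 0 < bil B x x) : x ≠ 0 := by
  rintro rfl
  rw [bil_zero_left] at h
  exact lt_irrefl _ h

/-- every positive vector can take the place of `h` -/
lemma neg_of_orth {B : Matrix (Fin ρ) (Fin ρ) ℤ} {h : Fin ρ → ℝ} (hL : Lorentz B h) {u : Fin ρ → ℝ}
    (hu : 0 < bil B u u) {x : Fin ρ → ℝ} (hx : bil B x u = 0) (hx0 : x ≠ 0) : bil B x x < 0 := by
  by_contra hneg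
  push Not at hneg
  have huh : bil B u h ≠ 0 := by
    intro h0
    have := hL.neg u h0 (ne_zero_of_pos hu)
    linarith
  obtain ⟨w, hw⟩ : ∃ w, w = bil B x h • u - bil B u h • x := ⟨_, rfl⟩
  have hux : bil B u x = 0 := by rw [bil_symm hL]; exact hx
  have h1 : bil B w h = 0 := by
    rw [hw, bil_sub_left, bil_smul_left, bil_smul_left]; ring
  have h2 : bil B w w = bil B x h ^ 2 * bil B u u + bil B u h ^ 2 * bil B x x := by
    rw [hw, bil_sub_left, bil_sub_right, bil_sub_right, bil_smul_left, bil_smul_left, bil_smul_right, bil_smul_right,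
      bil_smul_left, bil_smul_left, bil_smul_right, bil_smul_right, hux, hx]
    ring
  have h3 : 0 ≤ bil B w w := by
    rw [h2]
    have := sq_nonneg (bil B x h)
    have := sq_nonneg (bil B u h)
    positivity
  have hw0 : w = 0 := by
    by_contra h4
    have := hL.neg w h1 h4
    linarith
  have h5 : bil B u w = bil B x h * bil B u u := by
    rw [hw, bil_sub_right, bil_smul_right, bil_smul_right, hux]; ring
  rw [hw0, bil_zero_right] at h5
  have h6 : bil B x h = 0 := by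
    rcases mul_eq_zero.1 h5.symm with h7 | h7
    · exact h7
    · exact absurd h7 hu.ne'
  rw [h6, zero_smul, zero_sub] at hw
  rw [hw0] at hw
  rcases smul_eq_zero.1 (neg_eq_zero.1 hw.symm) with h7 | h7
  · exact huh h7
  · exact hx0 h7

/-- reverse Cauchy-Schwarz -/
lemma rev_cs {B : Matrix (Fin ρ) (Fin ρ) ℤ} {h : Fin ρ → ℝ} (hL : Lorentz B h) {u : Fin ρ → ℝ}
    (hu : bil B u u = 1) (x : Fin ρ → ℝ) : bil B x x ≤ bil B u x ^ 2 ∧ (bil B x x = bil B u x ^ 2 → x = bil B u x • u) := by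
  obtain ⟨y, hy⟩ : ∃ y, y = x - bil B u x • u := ⟨_, rfl⟩
  have h1 : bil B y u = 0 := by
    rw [hy, bil_sub_left, bil_smul_left, hu, bil_symm hL x u]; ring
  have h2 : bil B y y = bil B x x - bil B u x ^ 2 := by
    rw [hy, bil_sub_left, bil_sub_right, bil_sub_right, bil_smul_left, bil_smul_left, bil_smul_right, bil_smul_right, hu,
      bil_symm hL x u]
    ring
  by_cases hy0 : y = 0
  · rw [hy0, bil_zero_left] at h2
    refine ⟨by linarith, fun _ => ?_⟩
    rw [hy0] at hy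
    exact sub_eq_zero.1 hy.symm
  · have h3 := neg_of_orth hL (by rw [hu]; exact one_pos) h1 hy0
    exact ⟨by linarith, fun h4 => by linarith⟩

section main
variable {B : Matrix (Fin ρ) (Fin ρ) ℤ} {h : Fin ρ → ℝ} (hL : Lorentz B h)
include hL

lemma pos_h {y : Fin ρ → ℝ} (hy : y ∈ ncone B h) (hy0 : y ≠ 0) : 0 < bil B h y := by
  rw [bil_symm hL]
  rcases hy.2.lt_or_eq with h1 | h1
  · exact h1
  · have := neg_of_orth hL hL.pos h1.symm hy0
    linarith [hy.1]

/-- item 1 -/
lemma sgn1 {x y : Fin ρ → ℝ} (hx : x ∈ pcone B h) (hy : y ∈ ncone B h) (hy0 : y ≠ 0) : 0 < bil B x y := by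
  by_contra hneg
  push Not at hneg
  have h1 := pos_h hL hy hy0
  obtain ⟨z, hz⟩ : ∃ z, z = bil B h y • x + (-bil B x y) • h := ⟨_, rfl⟩
  have h2 : bil B z y = 0 := by
    rw [hz, bil_add_left, bil_smul_left, bil_smul_left]; ring
  have h3 : bil B z z = bil B h y ^ 2 * bil B x x + 2 * (bil B h y * (-bil B x y) * bil B x h) + bil B x y ^ 2 * bil B h h := by
    rw [hz, bil_add_left, bil_add_right, bil_add_right, bil_smul_left, bil_smul_left, bil_smul_right, bil_smul_right,
      bil_smul_left, bil_smul_left, bil_smul_right, bil_smul_right, bil_symm hL h x]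
    ring
  have h4 : 0 < bil B z z := by
    rw [h3]
    have e1 : 0 < bil B h y ^ 2 * bil B x x := mul_pos (pow_pos h1 2) hx.1
    have e2 : 0 ≤ bil B h y * (-bil B x y) * bil B x h := mul_nonneg (mul_nonneg h1.le (by linarith)) hx.2.le
    have e3 : 0 ≤ bil B x y ^ 2 * bil B h h := mul_nonneg (sq_nonneg _) hL.pos.le
    linarith
  have h5 := neg_of_orth hL h4 (by rw [bil_symm hL]; exact h2) hy0
  linarith [hy.1]

/-- item 2 -/
lemma sgn2 {x y : Fin ρ → ℝ} (hx : x ∈ ncone B h) (hy : y ∈ ncone B h) : 0 ≤ bil B x y := by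
  by_cases hy0 : y = 0
  · rw [hy0, bil_zero_right]
  by_contra hneg
  push Not at hneg
  have h1 := pos_h hL hy hy0
  have h2 : 0 < -bil B x y / bil B h y := div_pos (by linarith) h1
  have h3 := sgn1 hL (add_h_mem hL hx h2) hy hy0
  rw [bil_add_left, bil_smul_left, div_mul_cancel₀ _ h1.ne'] at h3
  linarith

/-- item 3 -/
lemma sgn3 {x y : Fin ρ → ℝ} (hx : x ∈ ncone B h) (hy : y ∈ ncone B h) (hx0 : x ≠ 0) (hxy : bil B x y = 0) :
    ∃ t : ℝ, 0 ≤ t ∧ y = t • x := by
  by_cases hy0 : y = 0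
  · exact ⟨0, le_rfl, by rw [hy0, zero_smul]⟩
  have h1 := pos_h hL hy hy0
  have h2 := pos_h hL hx hx0
  have hxx : bil B x x = 0 := by
    rcases hx.1.lt_or_eq with h3 | h3
    · have := sgn1 hL ⟨h3, by rw [bil_symm hL]; exact h2⟩ hy hy0
      linarith
    · exact h3.symm
  have hyy : bil B y y = 0 := by
    rcases hy.1.lt_or_eq with h3 | h3
    · have := sgn1 hL (x := y) ⟨h3, by rw [bil_symm hL]; exact h1⟩ hx hx0
      rw [bil_symm hL] at this
      linarith
    · exact h3.symm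
  obtain ⟨w, hw⟩ : ∃ w, w = bil B h x • y - bil B h y • x := ⟨_, rfl⟩
  have e1 : bil B w h = 0 := by
    rw [hw, bil_sub_left, bil_smul_left, bil_smul_left, bil_symm hL y h, bil_symm hL x h]; ring
  have e2 : bil B w w = 0 := by
    rw [hw, bil_sub_left, bil_sub_right, bil_sub_right, bil_smul_left, bil_smul_left, bil_smul_right, bil_smul_right,
      bil_smul_left, bil_smul_left, bil_smul_right, bil_smul_right, hxx, hyy, bil_symm hL y x, hxy]
    ring
  have e3 : w = 0 := by
    by_contra h4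
    have := hL.neg w e1 h4
    linarith
  refine ⟨bil B h y / bil B h x, by positivity, ?_⟩
  rw [e3] at hw
  have e4 := sub_eq_zero.1 hw.symm
  rw [div_eq_inv_mul, ← smul_smul, ← e4, smul_smul, inv_mul_cancel₀ h2.ne', one_smul]

/-- item 4 -/
lemma selfdual {x : Fin ρ → ℝ} (hx : ∀ y ∈ ncone B h, 0 ≤ bil B x y) : x ∈ ncone B h := by
  have h1 := hx h (pcone_sub B h (h_mem hL))
  refine ⟨?_, h1⟩
  by_contra hneg
  push Not at hneg
  have hH := hL.pos
  obtain ⟨s, hs⟩ : ∃ s, s = bil B x h / bil B h h := ⟨_, rfl⟩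
  have hsH : s * bil B h h = bil B x h := by rw [hs, div_mul_cancel₀ _ hH.ne']
  obtain ⟨x', hx'⟩ : ∃ x', x' = x - s • h := ⟨_, rfl⟩
  have e1 : bil B x' h = 0 := by rw [hx', bil_sub_left, bil_smul_left, hsH]; ring
  have e2 : bil B x' x' = bil B x x - s ^ 2 * bil B h h := by
    rw [hx', bil_sub_left, bil_sub_right, bil_sub_right, bil_smul_left, bil_smul_left, bil_smul_right, bil_smul_right,
      bil_symm hL h x, ← hsH]
    ring
  obtain ⟨n, hn⟩ : ∃ n, n = -bil B x' x' := ⟨_, rfl⟩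
  have hn0 : 0 < n := by
    rw [hn, e2]
    have : 0 ≤ s ^ 2 * bil B h h := by positivity
    linarith
  obtain ⟨l, hl⟩ : ∃ l, l = Real.sqrt (bil B h h / n) := ⟨_, rfl⟩
  have hl0 : 0 < l := by rw [hl]; exact Real.sqrt_pos.2 (by positivity)
  have hl2 : l ^ 2 * n = bil B h h := by
    rw [hl, Real.sq_sqrt (by positivity), div_mul_cancel₀ _ hn0.ne']
  have e3 : bil B (h + l • x') (h + l • x') = 0 := by
    rw [bil_add_left, bil_add_right, bil_add_right, bil_smul_left, bil_smul_left, bil_smul_right, bil_smul_right,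
      bil_symm hL h x', e1]
    have : bil B x' x' = -n := by rw [hn]; ring
    rw [this]
    nlinarith
  have e4 : bil B (h + l • x') h = bil B h h := by
    rw [bil_add_left, bil_smul_left, e1]; ring
  have e5 := hx (h + l • x') ⟨e3.ge, by rw [e4]; exact hH.le⟩
  have e6 : bil B x x' = -n := by
    have : x = s • h + x' := by rw [hx']; abel
    conv_lhs => rw [this]
    rw [bil_add_left, bil_smul_left, bil_symm hL h x', e1, hn]; ring
  rw [bil_add_right, bil_smul_right, e6, ← hsH] at e5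
  have hs0 : 0 ≤ s := by rw [hs]; positivity
  -- `s H ≥ l n`
  have e7 : l * n ≤ s * bil B h h := by linarith
  have e8 : (l * n) ^ 2 ≤ (s * bil B h h) ^ 2 := pow_le_pow_left₀ (by positivity) e7 2
  have e9 : (l * n) ^ 2 = bil B h h * n := by rw [← hl2]; ring
  have e10 : (s * bil B h h) ^ 2 = s ^ 2 * bil B h h * bil B h h := by ring
  have e11 : n = -(bil B x x) + s ^ 2 * bil B h h := by rw [hn, e2]; ring
  rw [e9, e10] at e8
  have e12 : n ≤ s ^ 2 * bil B h h := by
    by_contra h6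
    push Not at h6
    have := mul_lt_mul_of_pos_right h6 hH
    linarith
  linarith

lemma ncone_closed : IsClosed (ncone B h) := by
  have e : ncone B h = {x | 0 ≤ bil B x x} ∩ {x | 0 ≤ bil B x h} := rfl
  rw [e]
  refine IsClosed.inter (isClosed_le continuous_const ?_) (isClosed_le continuous_const (bil_cont_left B h))
  unfold bil
  fun_prop

lemma pcone_open : IsOpen (pcone B h) := by
  have e : pcone B h = {x | 0 < bil B x x} ∩ {x | 0 < bil B x h} := rfl
  rw [e]
  refine IsOpen.inter (isOpen_lt continuous_const ?_) (isOpen_lt continuous_const (bil_cont_left B h))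
  unfold bil
  fun_prop

lemma closure_eq : closure (pcone B h) = ncone B h := by
  apply Set.Subset.antisymm
  · exact closure_minimal (pcone_sub B h) (ncone_closed hL)
  · intro x hx
    have hc : Continuous fun t : ℝ => x + t • h := by fun_prop
    have h1 : Tendsto (fun t : ℝ => x + t • h) (𝓝[>] 0) (𝓝 (x + (0 : ℝ) • h)) :=
      (hc.tendsto 0).mono_left nhdsWithin_le_nhds
    rw [zero_smul, add_zero] at h1
    refine mem_closure_of_tendsto h1 ?_
    filter_upwards [self_mem_nhdsWithin] with t ht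
    exact add_h_mem hL hx ht

lemma interior_eq : interior (ncone B h) = pcone B h := by
  apply Set.Subset.antisymm
  · intro x hx
    obtain ⟨t, ht, h1⟩ := Pool.Agent.N165.KM.interior_sub hx h
    have h2 := add_h_mem hL (interior_subset h1) ht
    rwa [sub_add_cancel] at h2
  · exact interior_maximal (pcone_sub B h) (pcone_open hL)

lemma ncone_add {x y : Fin ρ → ℝ} (hx : x ∈ ncone B h) (hy : y ∈ ncone B h) : x + y ∈ ncone B h := by
  refine ⟨?_, ?_⟩
  · rw [bil_add_left, bil_add_right, bil_add_right, bil_symm hL y x]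
    have := sgn2 hL hx hy
    linarith [hx.1, hy.1]
  · rw [bil_add_left]
    linarith [hx.2, hy.2]

lemma ncone_smul {x : Fin ρ → ℝ} (hx : x ∈ ncone B h) {t : ℝ} (ht : 0 ≤ t) : t • x ∈ ncone B h := by
  refine ⟨?_, ?_⟩
  · rw [bil_smul_left, bil_smul_right]
    exact mul_nonneg ht (mul_nonneg ht hx.1)
  · rw [bil_smul_left]
    exact mul_nonneg ht hx.2

lemma opencone : Pool.Agent.L0h18.CO.IsOpenCone (pcone B h) where
  isOpen := pcone_open hL
  add := by
    intro x hx z hz
    refine ⟨?_, ?_⟩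
    · rw [bil_add_left, bil_add_right, bil_add_right, bil_symm hL z x]
      have := sgn2 hL (pcone_sub B h hx) (pcone_sub B h hz)
      linarith [hx.1, hz.1]
    · rw [bil_add_left]
      linarith [hx.2, hz.2]
  smul := by
    intro t ht x hx
    refine ⟨?_, ?_⟩
    · rw [bil_smul_left, bil_smul_right]
      exact mul_pos ht (mul_pos ht hx.1)
    · rw [bil_smul_left]
      exact mul_pos ht hx.2
  pointed := by
    rw [closure_eq hL]
    intro x hx hx'
    have h1 := hx'.2
    rw [bil_neg_left] at h1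
    have h2 : bil B x h = 0 := le_antisymm (by linarith) hx.2
    by_contra h0
    have := hL.neg x h2 h0
    linarith [hx.1]

lemma mem_N_iff {u : Fin ρ → ℝ} (hu : u ∈ pcone B h) (y : Fin ρ → ℝ) :
    y ∈ ncone B h ↔ 0 ≤ bil B y y ∧ 0 ≤ bil B y u := by
  constructor
  · intro hy
    exact ⟨hy.1, sgn2 hL hy (pcone_sub B h hu)⟩
  · rintro ⟨h1, h2⟩
    refine ⟨h1, ?_⟩
    by_contra h3
    push Not at h3
    have h4 : -y ∈ ncone B h := by
      refine ⟨?_, ?_⟩
      · rw [bil_neg_left, bil_neg_right, neg_neg]; exact h1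
      · rw [bil_neg_left]; linarith
    have hy0 : -y ≠ 0 := by
      intro h5
      have h6 : y = 0 := neg_eq_zero.1 h5
      rw [h6, bil_zero_left] at h3
      exact lt_irrefl _ h3
    have h7 := sgn1 hL hu h4 hy0
    rw [bil_neg_right, bil_symm hL] at h7
    linarith

lemma mem_P_iff {u : Fin ρ → ℝ} (hu : u ∈ pcone B h) (y : Fin ρ → ℝ) :
    y ∈ pcone B h ↔ 0 < bil B y y ∧ 0 < bil B y u := by
  constructor
  · intro hy
    exact ⟨hy.1, sgn1 hL hy (pcone_sub B h hu) (ne_zero_of_pos hu.1)⟩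
  · rintro ⟨h1, h2⟩
    have h3 := (mem_N_iff hL hu y).2 ⟨h1.le, h2.le⟩
    refine ⟨h1, ?_⟩
    rw [bil_symm hL]
    exact pos_h hL h3 (ne_zero_of_pos h1)

/-- item 10 -/
lemma bound1 {u : Fin ρ → ℝ} (hu : u ∈ pcone B h) : ∃ c : ℝ, 0 < c ∧ ∀ x ∈ ncone B h, c * ‖x‖ ≤ bil B u x := by
  have hK : IsCompact (ncone B h ∩ Metric.sphere 0 1) := (isCompact_sphere 0 1).inter_left (ncone_closed hL)
  have hh0 : h ≠ 0 := ne_zero_of_pos hL.pos
  have hn : 0 < ‖h‖ := norm_pos_iff.2 hh0
  have hne : (ncone B h ∩ Metric.sphere 0 1).Nonempty := by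
    refine ⟨‖h‖⁻¹ • h, ncone_smul hL (pcone_sub B h (h_mem hL)) (inv_nonneg.2 hn.le), ?_⟩
    rw [mem_sphere_zero_iff_norm, norm_smul, norm_inv, norm_norm, inv_mul_cancel₀ hn.ne']
  obtain ⟨z, ⟨hz1, hz2⟩, hz3⟩ := hK.exists_isMinOn hne (bil_cont B u).continuousOn
  have hz0 : z ≠ 0 := by
    rintro rfl
    simp at hz2
  refine ⟨bil B u z, sgn1 hL hu hz1 hz0, fun x hx => ?_⟩
  by_cases hx0 : x = 0
  · rw [hx0, bil_zero_right, norm_zero, mul_zero]
  · have hxn : 0 < ‖x‖ := norm_pos_iff.2 hx0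
    have h1 : bil B u z ≤ bil B u (‖x‖⁻¹ • x) := hz3 ⟨ncone_smul hL hx (inv_nonneg.2 hxn.le), by
      rw [mem_sphere_zero_iff_norm, norm_smul, norm_inv, norm_norm, inv_mul_cancel₀ hxn.ne']⟩
    rw [bil_smul_right, le_inv_mul_iff₀ hxn] at h1
    rw [mul_comm]
    exact h1

/-- item 11 -/
lemma bound2 {u : Fin ρ → ℝ} (hu : u ∈ pcone B h) (d : Fin ρ → ℝ) :
    ∃ C : ℝ, 0 < C ∧ ∀ x ∈ ncone B h, |bil B d x| ≤ C * bil B u x := by
  obtain ⟨c, hc, hcu⟩ := bound1 hL hu
  obtain ⟨M, hM⟩ : ∃ M, M = ‖LinearMap.toContinuousLinearMap (bl B d)‖ := ⟨_, rfl⟩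
  have hM0 : 0 ≤ M := by rw [hM]; exact norm_nonneg _
  refine ⟨M / c + 1, by positivity, fun x hx => ?_⟩
  have h1 : |bil B d x| ≤ M * ‖x‖ := by
    have := (LinearMap.toContinuousLinearMap (bl B d)).le_opNorm x
    rw [← hM] at this
    simpa using this
  have h2 := hcu x hx
  have h3 : 0 ≤ bil B u x := sgn2 hL (pcone_sub B h hu) hx
  have h4 : ‖x‖ ≤ bil B u x / c := by rw [le_div_iff₀ hc, mul_comm]; exact h2
  calc |bil B d x| ≤ M * ‖x‖ := h1
    _ ≤ M * (bil B u x / c) := mul_le_mul_of_nonneg_left h4 hM0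
    _ = M / c * bil B u x := by ring
    _ ≤ (M / c + 1) * bil B u x := by nlinarith

end main

theorem t_BAS : S_BAS := by
  intro ρ B h hL
  refine ⟨fun x hx y hy hy0 => sgn1 hL hx hy hy0, fun x hx y hy => sgn2 hL hx hy,
    fun x hx y hy hx0 hxy => sgn3 hL hx hy hx0 hxy, fun x hx => selfdual hL hx, opencone hL, closure_eq hL, interior_eq hL,
    fun x hx y hy => ncone_add hL hx hy, ?_, fun u hu => bound1 hL hu, fun u hu d => bound2 hL hu d, ?_, ?_, ?_, ?_, ?_⟩
  · intro x hx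
    by_contra h0
    have h1 := hL.neg x (hx h) h0
    rw [hx x] at h1
    exact lt_irrefl _ h1
  · intro u _ hu1 x hx0
    obtain ⟨h1, h2⟩ := rev_cs hL hu1 x
    rcases (sq_nonneg (bil B u x)).lt_or_eq with h3 | h3
    · linarith
    · have h4 : bil B u x = 0 := by
        rcases sq_eq_zero_iff.1 h3.symm with h5
        exact h5
      rcases h1.lt_or_eq with h5 | h5
      · linarith
      · have := h2 h5
        rw [h4, zero_smul] at this
        exact absurd this hx0
  · intro u hu hu1 x hx y hy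
    have h0 := sgn2 hL hx hy
    rw [abs_of_nonneg h0]
    have hy' : (2 * bil B u y) • u - y ∈ ncone B h := by
      rw [mem_N_iff hL hu]
      refine ⟨?_, ?_⟩
      · rw [bil_sub_left, bil_sub_right, bil_sub_right, bil_smul_left, bil_smul_left, bil_smul_right, bil_smul_right, hu1,
          bil_symm hL y u]
        have := hy.1
        linarith
      · rw [bil_sub_left, bil_smul_left, hu1, bil_symm hL y u]
        have := sgn2 hL (pcone_sub B h hu) hy
        linarith
    have h1 := sgn2 hL hx hy'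
    rw [bil_sub_right, bil_smul_right, bil_symm hL x u] at h1
    linarith
  · intro T hT
    obtain ⟨t1, t2, t3, t4⟩ := hT
    have hTh : T h ∈ pcone B h := ⟨by rw [t3]; exact hL.pos, t4⟩
    refine ⟨fun x => ?_, fun x => ?_⟩
    · rw [mem_P_iff hL hTh, t3, t3]
      rfl
    · rw [mem_N_iff hL hTh, t3, t3]
      rfl
  · intro T hT
    obtain ⟨t1, t2, t3, t4⟩ := hT
    refine ⟨t2, t1, fun x y => ?_, ?_⟩
    · have h1 := t3 (T⁻¹ x) (T⁻¹ y)
      have e : ∀ z, T (T⁻¹ z) = z := fun z => T.apply_symm_apply z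
      rw [e, e] at h1
      exact h1.symm
    · have h1 := t3 (T⁻¹ h) h
      have e : ∀ z, T (T⁻¹ z) = z := fun z => T.apply_symm_apply z
      rw [e] at h1
      rw [← h1, bil_symm hL]
      exact t4
  · intro S hS T hT
    obtain ⟨s1, s2, s3, s4⟩ := hS
    obtain ⟨t1, t2, t3, t4⟩ := hT
    refine ⟨fun x hx => s1 _ (t1 x hx), fun x hx => t2 _ (s2 x hx), fun x y => ?_, ?_⟩
    · show bil B (S (T x)) (S (T y)) = _
      rw [s3, t3]
    · show 0 < bil B (S (T h)) h
      have hTh : T h ∈ pcone B h := ⟨by rw [t3]; exact hL.pos, t4⟩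
      have hSh : S h ∈ pcone B h := ⟨by rw [s3]; exact hL.pos, s4⟩
      have h1 : S (T h) ∈ pcone B h := by
        rw [mem_P_iff hL hSh, s3, s3]
        exact hTh
      exact h1.2

end Pool.Agent.L0h92.LZ
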