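import Pool.Agent.L0h18.LZ.Defs
import Pool.Agent.H575R2.Farkas

/-! # Module VERT: vertices of the polyhedron -/

set_option autoImplicit false

open Pool.Agent.Y167 (cone)
open Pool.Agent.N165.KM (IntL)
open Topology Filter

namespace Pool.Agent.L0h92.LZ

open Pool.Agent.L0h18.LZ

variable {ρ : ℕ}

/-- the form as a bilinear map -/
noncomputable def bl (B : Matrix (Fin ρ) (Fin ρ) ℤ) : (Fin ρ → ℝ) →ₗ[ℝ] (Fin ρ → ℝ) →ₗ[ℝ] ℝ :=
  LinearMap.mk₂ ℝ (bil B)
    (fun x y z => by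
      simp only [bil, Pi.add_apply, mul_add, add_mul, Finset.sum_add_distrib])
    (fun c x y => by
      simp only [bil, Pi.smul_apply, smul_eq_mul, Finset.mul_sum]
      exact Finset.sum_congr rfl fun i _ => Finset.sum_congr rfl fun j _ => by ring)
    (fun x y z => by
      simp only [bil, Pi.add_apply, mul_add, Finset.sum_add_distrib])
    (fun c x y => by
      simp only [bil, Pi.smul_apply, smul_eq_mul, Finset.mul_sum]
      exact Finset.sum_congr rfl fun i _ => Finset.sum_congr rfl fun j _ => by ring)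

@[simp] lemma bl_apply (B : Matrix (Fin ρ) (Fin ρ) ℤ) (x y : Fin ρ → ℝ) : bl B x y = bil B x y := rfl

lemma bil_add_left (B : Matrix (Fin ρ) (Fin ρ) ℤ) (x y z : Fin ρ → ℝ) :
    bil B (x + y) z = bil B x z + bil B y z := by
  simp only [← bl_apply, map_add, LinearMap.add_apply]

lemma bil_add_right (B : Matrix (Fin ρ) (Fin ρ) ℤ) (x y z : Fin ρ → ℝ) :
    bil B x (y + z) = bil B x y + bil B x z := by
  simp only [← bl_apply, map_add]

lemma bil_smul_left (B : Matrix (Fin ρ) (Fin ρ) ℤ) (c : ℝ) (x z : Fin ρ → ℝ) :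
    bil B (c • x) z = c * bil B x z := by
  simp only [← bl_apply, map_smul, LinearMap.smul_apply, smul_eq_mul]

lemma bil_smul_right (B : Matrix (Fin ρ) (Fin ρ) ℤ) (c : ℝ) (x z : Fin ρ → ℝ) :
    bil B x (c • z) = c * bil B x z := by
  simp only [← bl_apply, map_smul, smul_eq_mul]

lemma bil_symm {B : Matrix (Fin ρ) (Fin ρ) ℤ} {h : Fin ρ → ℝ} (hL : Lorentz B h) (x y : Fin ρ → ℝ) :
    bil B x y = bil B y x := by
  unfold bil
  rw [Finset.sum_comm]
  refine Finset.sum_congr rfl fun i _ => Finset.sum_congr rfl fun j _ => ?_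
  rw [hL.symm j i]
  ring

lemma bil_cont (B : Matrix (Fin ρ) (Fin ρ) ℤ) (x : Fin ρ → ℝ) : Continuous fun y => bil B x y := by
  unfold bil
  fun_prop

lemma bil_cont_left (B : Matrix (Fin ρ) (Fin ρ) ℤ) (x : Fin ρ → ℝ) : Continuous fun y => bil B y x := by
  unfold bil
  fun_prop

/-- the polyhedron -/
def PS (B : Matrix (Fin ρ) (Fin ρ) ℤ) (h : Fin ρ → ℝ) : Set (Fin ρ → ℝ) :=
  {u | ∀ v ∈ Pts B h, 1 ≤ bil B u v}

lemma PS_closed (B : Matrix (Fin ρ) (Fin ρ) ℤ) (h : Fin ρ → ℝ) : IsClosed (PS B h) := by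
  have : PS B h = ⋂ v ∈ Pts B h, {u | 1 ≤ bil B u v} := by
    ext u
    simp [PS]
  rw [this]
  exact isClosed_biInter fun v _ => isClosed_le continuous_const (bil_cont_left B v)

lemma pcone_sub (B : Matrix (Fin ρ) (Fin ρ) ℤ) (h : Fin ρ → ℝ) : pcone B h ⊆ ncone B h :=
  fun _ hx => ⟨hx.1.le, hx.2.le⟩

lemma h_mem {B : Matrix (Fin ρ) (Fin ρ) ℤ} {h : Fin ρ → ℝ} (hL : Lorentz B h) : h ∈ pcone B h :=
  ⟨hL.pos, hL.pos⟩

/-- approximation by integral vectors -/
lemma approx (y : Fin ρ → ℝ) :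
    Tendsto (fun n : ℕ => (n : ℝ)⁻¹ • (fun i => (round ((n : ℝ) * y i) : ℝ) : Fin ρ → ℝ)) atTop (𝓝 y) := by
  rw [tendsto_pi_nhds]
  intro i
  have h1 : Tendsto (fun n : ℕ => (n : ℝ)⁻¹ * (round ((n : ℝ) * y i) : ℝ) - y i) atTop (𝓝 0) := by
    refine squeeze_zero_norm' (a := fun n : ℕ => (n : ℝ)⁻¹) ?_ tendsto_inv_atTop_nhds_zero_nat
    filter_upwards [eventually_gt_atTop 0] with n hn
    have hn0 : (0 : ℝ) < n := by exact_mod_cast hn
    have e : (n : ℝ)⁻¹ * (round ((n : ℝ) * y i) : ℝ) - y i =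
        -((n : ℝ)⁻¹ * ((n : ℝ) * y i - round ((n : ℝ) * y i))) := by
      field_simp
      ring
    rw [e, norm_neg, norm_mul, norm_inv, Real.norm_eq_abs, Real.norm_eq_abs, abs_of_pos hn0]
    have := abs_sub_round ((n : ℝ) * y i)
    calc (n : ℝ)⁻¹ * |(n : ℝ) * y i - round ((n : ℝ) * y i)| ≤ (n : ℝ)⁻¹ * 1 := by
          apply mul_le_mul_of_nonneg_left _ (inv_nonneg.2 hn0.le)
          linarith
      _ = _ := mul_one _
  have h2 := h1.add_const (y i)
  simpa using h2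

lemma PS_sub_ncone (hB : S_BAS) {B : Matrix (Fin ρ) (Fin ρ) ℤ} {h : Fin ρ → ℝ} (hL : Lorentz B h)
    {u : Fin ρ → ℝ} (hu : u ∈ PS B h) : u ∈ ncone B h := by
  obtain ⟨-, -, -, b4, b5, b6, -, -, -, -, -, -, -, -, -, -⟩ := hB ρ B h hL
  apply b4
  have hcl : IsClosed {y | 0 ≤ bil B u y} := isClosed_le continuous_const (bil_cont B u)
  have hP : pcone B h ⊆ {y | 0 ≤ bil B u y} := by
    intro y hy
    have ha := approx y
    have h1 := ((bil_cont B u).tendsto y).comp ha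
    refine ge_of_tendsto h1 ?_
    have h2 : ∀ᶠ n : ℕ in atTop, (n : ℝ)⁻¹ • (fun i => (round ((n : ℝ) * y i) : ℝ) : Fin ρ → ℝ) ∈ pcone B h :=
      ha.eventually_mem (b5.isOpen.mem_nhds hy)
    filter_upwards [h2, eventually_gt_atTop 0] with n hn hn0
    have hn1 : (0 : ℝ) < n := by exact_mod_cast hn0
    have h3 := b5.smul n hn1 _ hn
    rw [smul_smul, mul_inv_cancel₀ hn1.ne', one_smul] at h3
    have h4 : (fun i => (round ((n : ℝ) * y i) : ℝ) : Fin ρ → ℝ) ∈ Pts B h := by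
      refine ⟨fun i => ⟨_, rfl⟩, ?_, pcone_sub B h h3⟩
      intro h0
      rw [h0] at h3
      have := h3.1
      simp [bil] at this
    have h5 := hu _ h4
    simp only [Function.comp]
    rw [bil_smul_right]
    positivity
  rw [← b6]
  exact closure_minimal hP hcl

lemma add_h_mem {B : Matrix (Fin ρ) (Fin ρ) ℤ} {h : Fin ρ → ℝ} (hL : Lorentz B h)
    {u : Fin ρ → ℝ} (hu : u ∈ ncone B h) {t : ℝ} (ht : 0 < t) : u + t • h ∈ pcone B h := by
  have h1 := hL.pos
  have h2 := hu.1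
  have h3 := hu.2
  refine ⟨?_, ?_⟩
  · rw [bil_add_left, bil_add_right, bil_add_right, bil_smul_left, bil_smul_left, bil_smul_right, bil_smul_right,
      bil_symm hL h u]
    have h4 : 0 < t * (t * bil B h h) := by positivity
    have h5 : 0 ≤ t * bil B u h := by positivity
    linarith
  · rw [bil_add_left, bil_smul_left]
    have h4 : 0 < t * bil B h h := by positivity
    linarith

lemma PS_low (hB : S_BAS) {B : Matrix (Fin ρ) (Fin ρ) ℤ} {h : Fin ρ → ℝ} (hL : Lorentz B h)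
    {R : ℝ} (hR : 0 < R) (hM : ∀ u ∈ pcone B h, bil B u u = 1 → ∃ v ∈ Pts B h, bil B u v ≤ R)
    {u : Fin ρ → ℝ} (hu : u ∈ PS B h) : 1 / R ^ 2 ≤ bil B u u := by
  obtain ⟨-, b2, -, b4, b5, b6, -, -, -, -, -, -, -, -, -, -⟩ := hB ρ B h hL
  have huN := PS_sub_ncone hB hL hu
  have key : ∀ t : ℝ, 0 < t → 1 / R ^ 2 ≤ bil B (u + t • h) (u + t • h) := by
    intro t ht
    have h1 := add_h_mem hL huN ht
    obtain ⟨q, hq⟩ : ∃ q, q = bil B (u + t • h) (u + t • h) := ⟨_, rfl⟩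
    have hq0 : 0 < q := by rw [hq]; exact h1.1
    have hs : 0 < Real.sqrt q := Real.sqrt_pos.2 hq0
    have h2 : (Real.sqrt q)⁻¹ • (u + t • h) ∈ pcone B h := b5.smul _ (inv_pos.2 hs) _ h1
    obtain ⟨v, hv, hvR⟩ := hM _ h2 (by
      rw [bil_smul_left, bil_smul_right, ← hq]
      have := Real.mul_self_sqrt hq0.le
      field_simp
      nlinarith)
    rw [bil_smul_left, inv_mul_le_iff₀ hs, bil_add_left, bil_smul_left] at hvR
    have h3 := hu v hv
    have h4 : 0 ≤ bil B h v := b2 _ (pcone_sub B h (h_mem hL)) _ hv.2.2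
    have h5 : 1 ≤ Real.sqrt q * R := by
      have : 0 ≤ t * bil B h v := by positivity
      linarith
    rw [← hq, div_le_iff₀ (by positivity)]
    have h6 := Real.mul_self_sqrt hq0.le
    calc (1 : ℝ) = 1 * 1 := by ring
      _ ≤ (Real.sqrt q * R) * (Real.sqrt q * R) := mul_le_mul h5 h5 zero_le_one (by positivity)
      _ = (Real.sqrt q * Real.sqrt q) * R ^ 2 := by ring
      _ = q * R ^ 2 := by rw [h6]
  have hc : Continuous fun t : ℝ => bil B (u + t • h) (u + t • h) := by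
    unfold bil
    fun_prop
  have h1 : Tendsto (fun t : ℝ => bil B (u + t • h) (u + t • h)) (𝓝[>] 0) (𝓝 (bil B (u + (0 : ℝ) • h) (u + (0 : ℝ) • h))) :=
    (hc.tendsto 0).mono_left nhdsWithin_le_nhds
  rw [zero_smul, add_zero] at h1
  refine ge_of_tendsto h1 ?_
  filter_upwards [self_mem_nhdsWithin] with t ht
  exact key t ht

lemma norm_ge_one {v : Fin ρ → ℝ} (hv : v ∈ IntL ρ) (h0 : v ≠ 0) : 1 ≤ ‖v‖ := by
  obtain ⟨i, hi⟩ := Function.ne_iff.1 h0
  obtain ⟨m, hm⟩ := hv i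
  have h1 := norm_le_pi_norm v i
  refine le_trans ?_ h1
  rw [hm]
  have hm0 : m ≠ 0 := by
    rintro rfl
    apply hi
    simpa using hm
  rw [Real.norm_eq_abs]
  exact_mod_cast Int.one_le_abs hm0

/-- local finiteness -/
lemma local_fin (hB : S_BAS) {B : Matrix (Fin ρ) (Fin ρ) ℤ} {h : Fin ρ → ℝ} (hL : Lorentz B h)
    {u : Fin ρ → ℝ} (hu : u ∈ pcone B h) (d : Fin ρ → ℝ) :
    ∀ᶠ ε : ℝ in 𝓝[>] 0, ∀ v ∈ Pts B h, 1 < bil B u v → 1 ≤ bil B (u + ε • d) v := by
  obtain ⟨-, b2, -, b4, b5, b6, -, -, -, b10, b11, -, -, -, -, -⟩ := hB ρ B h hL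
  obtain ⟨c, hc, hcu⟩ := b10 u hu
  obtain ⟨C, hC, hCd⟩ := b11 u hu d
  have hfin : {v | v ∈ Pts B h ∧ bil B u v < 2}.Finite := by
    refine (Pool.Agent.N165.KM.finite_bdd (2 / c)).subset ?_
    rintro v ⟨hv, hv2⟩
    refine ⟨hv.1, ?_⟩
    rw [le_div_iff₀ hc, mul_comm]
    exact (hcu v hv.2.2).trans hv2.le
  have h1 : ∀ᶠ ε : ℝ in 𝓝[>] 0, ∀ v ∈ {v | v ∈ Pts B h ∧ bil B u v < 2}, 1 < bil B u v → 1 ≤ bil B (u + ε • d) v := by
    rw [Filter.eventually_all_finite hfin]
    intro v _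
    by_cases hv : 1 < bil B u v
    · have hcont : Continuous fun ε : ℝ => bil B (u + ε • d) v := by
        unfold bil
        fun_prop
      have h2 : Tendsto (fun ε : ℝ => bil B (u + ε • d) v) (𝓝[>] 0) (𝓝 (bil B (u + (0 : ℝ) • d) v)) :=
        (hcont.tendsto 0).mono_left nhdsWithin_le_nhds
      rw [zero_smul, add_zero] at h2
      filter_upwards [h2.eventually (lt_mem_nhds hv)] with ε hε _
      exact hε.le
    · exact Eventually.of_forall fun ε h3 => absurd h3 hv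
  have h2 : ∀ᶠ ε : ℝ in 𝓝[>] 0, ε < 1 / (2 * C) :=
    (eventually_lt_nhds (show (0 : ℝ) < 1 / (2 * C) by positivity)).filter_mono nhdsWithin_le_nhds
  filter_upwards [h1, h2, self_mem_nhdsWithin] with ε h3 h4 h5
  intro v hv hv1
  have hε : 0 < ε := h5
  by_cases hv2 : bil B u v < 2
  · exact h3 v ⟨hv, hv2⟩ hv1
  · push Not at hv2
    rw [bil_add_left, bil_smul_left]
    have h6 := (abs_le.1 (hCd v hv.2.2)).1
    have h7 : ε * C ≤ 1 / 2 := by
      have := mul_le_mul_of_nonneg_right h4.le hC.le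
      calc ε * C ≤ 1 / (2 * C) * C := this
        _ = 1 / 2 := by field_simp
    have h8 : ε * -(C * bil B u v) ≤ ε * bil B d v := mul_le_mul_of_nonneg_left h6 hε.le
    nlinarith

/-- moving inside the polyhedron -/
lemma move (hB : S_BAS) {B : Matrix (Fin ρ) (Fin ρ) ℤ} {h : Fin ρ → ℝ} (hL : Lorentz B h)
    {u : Fin ρ → ℝ} (hu : u ∈ pcone B h) (huP : u ∈ PS B h) (d : Fin ρ → ℝ)
    (hd : ∀ v ∈ Pts B h, bil B u v = 1 → 0 ≤ bil B d v) :
    ∀ᶠ ε : ℝ in 𝓝[>] 0, u + ε • d ∈ PS B h := by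
  filter_upwards [local_fin hB hL hu d, self_mem_nhdsWithin] with ε h1 h2
  intro v hv
  have hε : 0 < ε := h2
  rcases (huP v hv).lt_or_eq with h3 | h3
  · exact h1 v hv h3
  · rw [bil_add_left, bil_smul_left, ← h3]
    have := mul_nonneg hε.le (hd v hv h3.symm)
    linarith

theorem t_VERT : S_VERT := by
  intro hB hMk ρ B h hL x hx
  obtain ⟨R, hR, hM⟩ := hMk hB ρ B h hL
  obtain ⟨-, b2, -, b4, b5, b6, -, -, b9, b10, b11, -, -, -, -, -⟩ := hB ρ B h hL
  have hPP : ∀ u ∈ PS B h, u ∈ pcone B h := by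
    intro u hu
    have h1 := PS_low hB hL hR hM hu
    have h2 : 0 < 1 / R ^ 2 := by positivity
    have h3 := PS_sub_ncone hB hL hu
    refine ⟨lt_of_lt_of_le h2 h1, ?_⟩
    rcases h3.2.lt_or_eq with h4 | h4
    · exact h4
    · exfalso
      by_cases hu0 : u = 0
      · rw [hu0] at h1
        simp [bil] at h1
        have := pow_pos hR 2
        have h5 : 0 < (R ^ 2)⁻¹ := inv_pos.2 this
        linarith
      · have := hL.neg u h4.symm hu0
        linarith
  -- a point of the polyhedron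
  obtain ⟨c, hc, hch⟩ := b10 h (h_mem hL)
  have hp : c⁻¹ • h ∈ PS B h := by
    intro v hv
    rw [bil_smul_left]
    have h1 := hch v hv.2.2
    have h2 := norm_ge_one hv.1 hv.2.1
    rw [le_inv_mul_iff₀ hc, mul_one]
    calc c = c * 1 := (mul_one c).symm
      _ ≤ c * ‖v‖ := mul_le_mul_of_nonneg_left h2 hc.le
      _ ≤ _ := h1
  -- the minimum
  obtain ⟨cx, hcx, hxx⟩ := b10 x hx
  have hK : IsCompact (PS B h ∩ {u | bil B x u ≤ bil B x (c⁻¹ • h)}) := by
    refine Metric.isCompact_of_isClosed_isBounded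
      ((PS_closed B h).inter (isClosed_le (bil_cont B x) continuous_const)) ?_
    refine (Metric.isBounded_closedBall (x := (0 : Fin ρ → ℝ)) (r := bil B x (c⁻¹ • h) / cx)).subset ?_
    rintro u ⟨hu1, hu2⟩
    rw [mem_closedBall_zero_iff, le_div_iff₀ hcx, mul_comm]
    exact (hxx u (PS_sub_ncone hB hL hu1)).trans hu2
  obtain ⟨u0, ⟨hu0a, hu0b⟩, hu0m⟩ := hK.exists_isMinOn ⟨c⁻¹ • h, hp, le_refl (bil B x (c⁻¹ • h))⟩ (bil_cont B x).continuousOn
  have hmin : ∀ u ∈ PS B h, bil B x u0 ≤ bil B x u := by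
    intro u hu
    by_cases h1 : bil B x u ≤ bil B x (c⁻¹ • h)
    · exact hu0m ⟨hu, h1⟩
    · push Not at h1
      exact (hu0b.trans h1.le)
  obtain ⟨m, hm⟩ : ∃ m, m = bil B x u0 := ⟨_, rfl⟩
  -- the face
  obtain ⟨Q, hQ⟩ : ∃ Q, Q = PS B h ∩ {u | bil B x u = m} := ⟨_, rfl⟩
  have hQc : IsCompact Q := by
    refine hK.of_isClosed_subset ?_ ?_
    · rw [hQ]
      exact (PS_closed B h).inter (isClosed_eq (bil_cont B x) continuous_const)
    · rw [hQ]
      rintro u ⟨h1, h2⟩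
      refine ⟨h1, ?_⟩
      have h3 : bil B x u = m := h2
      show bil B x u ≤ _
      rw [h3, hm]
      exact hu0b
  obtain ⟨u, hu⟩ := hQc.extremePoints_nonempty ⟨u0, by rw [hQ]; exact ⟨hu0a, hm.symm⟩⟩
  have huQ : u ∈ Q := hu.1
  have huQ' := huQ
  rw [hQ] at huQ'
  obtain ⟨huP, hum⟩ := huQ'
  have hum' : bil B x u = m := hum
  have hupc := hPP u huP
  -- no segment around `u`
  have hext : ∀ w : Fin ρ → ℝ, u + w ∈ PS B h → u - w ∈ PS B h → w = 0 := by
    intro w h1 h2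
    have e1 := hmin _ h1
    have e2 := hmin _ h2
    have e3 : bil B x (u + w) = m + bil B x w := by rw [bil_add_right, hum']
    have e4 : bil B x (u - w) = m - bil B x w := by
      rw [sub_eq_add_neg, bil_add_right, hum', ← neg_one_smul ℝ w, bil_smul_right]
      ring
    rw [e3, ← hm] at e1
    rw [e4, ← hm] at e2
    have e5 : bil B x w = 0 := by linarith
    have q1 : u + w ∈ Q := by rw [hQ]; exact ⟨h1, by show bil B x (u + w) = m; rw [e3, e5, add_zero]⟩
    have q2 : u - w ∈ Q := by rw [hQ]; exact ⟨h2, by show bil B x (u - w) = m; rw [e4, e5, sub_zero]⟩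
    have q3 : u ∈ openSegment ℝ (u + w) (u - w) := by
      refine ⟨1 / 2, 1 / 2, by norm_num, by norm_num, by norm_num, ?_⟩
      rw [← smul_add]
      have : u + w + (u - w) = (2 : ℝ) • u := by rw [two_smul]; abel
      rw [this, smul_smul]
      norm_num
    have q4 := hu.2 q1 q2 q3
    simpa using q4
  have hfin : {v | v ∈ Pts B h ∧ bil B u v = 1}.Finite := by
    obtain ⟨c', hc', hcu⟩ := b10 u hupc
    refine (Pool.Agent.N165.KM.finite_bdd (1 / c')).subset ?_
    rintro v ⟨hv, hv2⟩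
    refine ⟨hv.1, ?_⟩
    rw [le_div_iff₀ hc', mul_comm]
    exact (hcu v hv.2.2).trans hv2.le
  have hsurj : Function.Surjective (bl B) := by
    have hinj : Function.Injective (bl B) := by
      rw [← LinearMap.ker_eq_bot, LinearMap.ker_eq_bot']
      intro d hd
      apply b9
      intro y
      rw [← bl_apply, hd]
      rfl
    exact (LinearMap.injective_iff_surjective_of_finrank_eq_finrank
      (Subspace.dual_finrank_eq (K := ℝ) (V := Fin ρ → ℝ)).symm).1 hinj
  refine ⟨u, ⟨hupc, huP, ?_⟩, hfin.toFinset, ?_, ?_⟩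
  · by_contra hne
    obtain ⟨f, hf0, hf⟩ := Submodule.exists_le_ker_of_lt_top _ (lt_top_iff_ne_top.2 hne)
    obtain ⟨d, hd⟩ := hsurj f
    have hdv : ∀ v ∈ Pts B h, bil B u v = 1 → bil B d v = 0 := by
      intro v hv hv1
      have h1 : v ∈ LinearMap.ker f := hf (Submodule.subset_span ⟨hv, hv1⟩)
      rw [LinearMap.mem_ker, ← hd] at h1
      exact h1
    have m1 := move hB hL hupc huP d fun v hv hv1 => (hdv v hv hv1).ge
    have m2 := move hB hL hupc huP (-d) fun v hv hv1 => by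
      rw [← neg_one_smul ℝ d, bil_smul_left, hdv v hv hv1]
      simp
    obtain ⟨ε, ⟨hε1, hε2⟩, hε0⟩ := ((m1.and m2).and self_mem_nhdsWithin).exists
    have hε : (0 : ℝ) < ε := hε0
    have h1 := hext (ε • d) hε1 (by
      rw [smul_neg] at hε2
      rwa [sub_eq_add_neg])
    rcases smul_eq_zero.1 h1 with h2 | h2
    · exact hε.ne' h2
    · apply hf0
      rw [← hd, h2, map_zero]
  · intro v hv
    rw [Set.Finite.mem_toFinset] at hv
    exact hv
  · -- Farkas
    obtain ⟨F, hF⟩ : ∃ F, F = hfin.toFinset := ⟨_, rfl⟩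
    have hFm : ∀ v, v ∈ F ↔ v ∈ Pts B h ∧ bil B u v = 1 := by
      intro v
      rw [hF, Set.Finite.mem_toFinset]
      rfl
    rw [← hF]
    let e := F.equivFin
    obtain ⟨w, hw, hws⟩ := H575R2.farkas_lin F.card
      (fun i => -((bl B).flip ((e.symm i : F) : Fin ρ → ℝ))) (-((bl B).flip x)) (by
        intro d hd
        simp only [LinearMap.neg_apply, LinearMap.flip_apply, bl_apply] at hd ⊢
        by_contra hneg
        push Not at hneg
        have m1 := move hB hL hupc huP d fun v hv hv1 => by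
          have h1 := hd (e ⟨v, (hFm v).2 ⟨hv, hv1⟩⟩)
          rw [Equiv.symm_apply_apply] at h1
          linarith
        obtain ⟨ε, hε1, hε0⟩ := (m1.and self_mem_nhdsWithin).exists
        have hε : (0 : ℝ) < ε := hε0
        have h1 := hmin _ hε1
        rw [bil_add_right, bil_smul_right, hum', ← hm, bil_symm hL x d] at h1
        have : 0 < ε * -bil B d x := mul_pos hε hneg
        nlinarith)
    have hx' : x = ∑ i, w i • ((e.symm i : F) : Fin ρ → ℝ) := by
      have h1 : ∀ d, bil B (x - ∑ i, w i • ((e.symm i : F) : Fin ρ → ℝ)) d = 0 := by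
        intro d
        have h2 := hws d
        simp only [LinearMap.neg_apply, LinearMap.flip_apply, bl_apply] at h2
        rw [bil_symm hL, ← bl_apply, map_sub, map_sum]
        simp only [map_smul, smul_eq_mul, bl_apply]
        have h3 : ∑ i, w i * -bil B d ((e.symm i : F) : Fin ρ → ℝ) = -∑ i, w i * bil B d ((e.symm i : F) : Fin ρ → ℝ) := by
          rw [← Finset.sum_neg_distrib]
          exact Finset.sum_congr rfl fun i _ => by ring
        rw [h3] at h2
        linarith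
      exact sub_eq_zero.1 (b9 _ h1)
    rw [hx']
    exact Pool.Agent.Y167.cone_sum _ _ fun i _ =>
      Pool.Agent.Y167.cone_smul (Pool.Agent.Y167.mem_cone_self (e.symm i).2) (hw i)

end Pool.Agent.L0h92.LZ
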